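import Pool.Agent.X214.SO.PseudoMain

/-! MP_b2dc7d_gt, Q1 for all groups of cardinality less than the bounding number, and for all
so-functions with dominated rates on any pseudobounded group. -/

universe u

namespace Pool.Agent.Results.MP_b2dc7d_gt.DominatedRates

open Filter Pool.Agent.X214.SO

/-- (1) If the finitary ballean of `G` is pseudobounded and every family of functions `ℕ → ℕ`
indexed by `G` is eventually dominated by one function (that is, `|G|` is less than the bounding
number), then every slowly oscillating function is constant at infinity.
(2) More generally, on any pseudobounded group, a slowly oscillating function whose rates of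
oscillation are eventually dominated by one function is constant at infinity. -/
theorem result :
    (∀ (G : Type u) [Group G], Pseudobounded G →
      (∀ r : G → ℕ → ℕ, ∃ g : ℕ → ℕ, ∀ u, ∀ᶠ k in atTop, r u k ≤ g k) →
      ∀ f : G → ℝ, SlowOsc f → ConstAtInf f) ∧
    (∀ (G : Type u) [Group G], Pseudobounded G → ∀ f : G → ℝ, SlowOsc f →
      (∃ g : ℕ → ℕ, ∀ u : G, ∀ᶠ k in atTop, rate f u k ≤ g k) → ConstAtInf f) :=
  ⟨fun _ _ hG hr f hf => pseudobounded_dominated hG hf (hr (rate f)),
    fun _ _ hG _ hf hd => pseudobounded_dominated hG hf hd⟩

end Pool.Agent.Results.MP_b2dc7d_gt.DominatedRates
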